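import Pool.Agent.H961R2.Lev.Stubs

open MeasureTheory Set Filter Topology InnerProductSpace Complex

namespace H961Lev

theorem F0_nonneg {E : Set ℝ} {U : ℂ → ℝ} (hU : IsLevin E U) (x : ℝ) : 0 ≤ U (x : ℂ) := by
  by_cases h : (x : ℂ) ∈ ((fun x : ℝ => (x : ℂ)) '' E)
  · obtain ⟨y, hy, e⟩ := h
    have := hU.zero y hy
    simp only at e
    rw [← e, this]
  · exact (hU.pos _ h).le

theorem F0_int (s : ℝ) (hs : 0 < s) : Integrable (fun t : ℝ => 1 / (t ^ 2 + s ^ 2)) := by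
  have hm : 0 < min 1 (s ^ 2) := lt_min one_pos (by positivity)
  refine Integrable.mono' (integrable_inv_one_add_sq.const_mul (1 / min 1 (s ^ 2))) ?_ ?_
  · exact (Continuous.aestronglyMeasurable (by
      refine continuous_const.div (by fun_prop) fun t => ?_
      positivity))
  · refine Eventually.of_forall fun t => ?_
    rw [Real.norm_eq_abs, abs_of_nonneg (by positivity), ← one_div, one_div_mul_one_div]
    refine one_div_le_one_div_of_le (by positivity) ?_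
    have h1 : min 1 (s ^ 2) ≤ 1 := min_le_left _ _
    have h2 : min 1 (s ^ 2) ≤ s ^ 2 := min_le_right _ _
    nlinarith [sq_nonneg t]

theorem F0_cell {U : ℂ → ℝ} (hc : Continuous U) {B : ℝ} (hB : ∀ x : ℝ, 0 ≤ U x ∧ U x ≤ B)
    (N : ℕ) (hN : 0 < N) (j : ℤ) : 0 ≤ cellU U N j ∧ cellU U N j ≤ B := by
  have hN' : (0 : ℝ) < N := by exact_mod_cast hN
  have hab : ((j - 1 / 2 : ℝ) / N) ≤ ((j + 1 / 2 : ℝ) / N) :=
    div_le_div_of_nonneg_right (by linarith) hN'.le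
  unfold cellU
  refine ⟨mul_nonneg hN'.le (intervalIntegral.integral_nonneg hab fun t _ => (hB t).1), ?_⟩
  have h1 : ∫ t in ((j - 1 / 2 : ℝ) / N)..((j + 1 / 2 : ℝ) / N), U (t : ℂ) ≤
      ∫ t in ((j - 1 / 2 : ℝ) / N)..((j + 1 / 2 : ℝ) / N), B := by
    refine intervalIntegral.integral_mono_on hab ?_ ?_ fun t _ => (hB t).2
    · exact (hc.comp Complex.continuous_ofReal).intervalIntegrable _ _
    · exact continuous_const.intervalIntegrable _ _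
  rw [intervalIntegral.integral_const, smul_eq_mul] at h1
  have h2 : ((j + 1 / 2 : ℝ) / N - (j - 1 / 2 : ℝ) / N) * B = B / N := by
    field_simp
    ring
  rw [h2] at h1
  calc (N : ℝ) * _ ≤ N * (B / N) := mul_le_mul_of_nonneg_left h1 hN'.le
    _ = B := by field_simp

theorem F0_W {W : ℕ → ℝ} {a : ℝ} (hW : ∀ m : ℕ,
      HasSum (fun j : ℕ => W j * ((Nat.choose (2 * j) (j + m) : ℝ) / 4 ^ j))
      (1 / (a ^ 2 + (m : ℝ) ^ 2))) (m : ℤ) :
    HasSum (fun j : ℕ => W j * ((Nat.choose (2 * j) (j + m.natAbs) : ℝ) / 4 ^ j))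
      (1 / (a ^ 2 + (m : ℝ) ^ 2)) := by
  have := hW m.natAbs
  have e : ((m.natAbs : ℕ) : ℝ) ^ 2 = (m : ℝ) ^ 2 := by
    rw [← Int.cast_natCast, ← Int.cast_pow, Int.natAbs_sq, Int.cast_pow]
  rwa [e] at this

theorem F0_step (hC10 : S_C10) (hK1 : S_K1) (hK3 : S_K3) (hP10 : S_P10) (hM2 : S_M2)
    (hM3 : S_M3) (hM6 : S_M6) (hL2 : S_L2) (hL3 : S_L3)
    {δ δ' : ℝ} (h1 : 0 < δ') (h2 : δ' < δ) (h3 : δ < 1) {E : Set ℝ} {U : ℂ → ℝ}
    (hE : RD δ E) (hU : IsLevin E U) {B0 : ℝ} (hB : ∀ x : ℝ, U x ≤ B0)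
    {s b : ℝ} (hs : 0 < s) (hsb : s < b) :
    ∃ C h₀ : ℝ, 0 < C ∧ 0 < h₀ ∧ ∀ h, 0 < h → h ≤ h₀ → ∀ e, 0 < e →
      (∫ t : ℝ, (1 / (t ^ 2 + s ^ 2) - 1 / (t ^ 2 + b ^ 2)) * U t) ≤
      (1 + C * h) *
        ((∫ t : ℝ, (1 / (t ^ 2 + s ^ 2) - 1 / (t ^ 2 + b ^ 2)) * Ut δ' t) + e) + e := by
  obtain ⟨C, h₀, hC, hh₀, hM⟩ := hM6 δ δ' h1 h2 h3
  refine ⟨C, h₀, hC, hh₀, fun h hh hhh e he => ?_⟩
  obtain ⟨N1, hN1⟩ := hM h hh hhh
  obtain ⟨hM3a, hM3b, -, -, hM3e, hM3f, hM3g⟩ := hM3 δ' h1 (h2.trans h3)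
  have hcont := (hM2 δ' h1 (h2.trans h3)).cont
  have hδ : 0 < δ := h1.trans h2
  have hU0 : ∀ x : ℝ, 0 ≤ U x ∧ U x ≤ B0 := fun x => ⟨F0_nonneg hU x, hB x⟩
  obtain ⟨N2, hN2⟩ := hL2 (fun t => Ut δ' (t : ℂ)) (hcont.comp Complex.continuous_ofReal)
    (fun x => by
      have := hM3f x
      push_cast
      exact this) (fun x => (hM3g x).1) s b e hs hsb he
  obtain ⟨N3, hN3⟩ := hL3 U B0 hU.cont hU0 s b e hs hsb he
  obtain ⟨W, hW0, hWs, hWh, hWm⟩ := hK1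
  -- choice of N
  obtain ⟨N4, hN4⟩ := exists_nat_gt (1 / δ)
  set R := N1 + N2 + N3 + N4 with hR
  set N := 2 * R + 1 with hN
  have hNpos : 0 < N := by omega
  have hN' : (0 : ℝ) < N := by exact_mod_cast hNpos
  have hδN : 1 ≤ δ * N := by
    have : (N4 : ℝ) ≤ N := by exact_mod_cast (by omega : N4 ≤ N)
    have h5 : 1 / δ ≤ N := hN4.le.trans this
    rw [div_le_iff₀ hδ] at h5
    linarith
  set r := ⌈((1 - δ) * N - 1) / 2⌉₊ with hr
  have hr1 : (1 - δ) * N ≤ 2 * r + 1 := by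
    have := Nat.le_ceil (((1 - δ) * N - 1) / 2)
    rw [← hr] at this
    linarith
  have hr2 : (2 * r + 1 : ℝ) < (1 - δ) * N + 2 := by
    rcases le_or_gt (((1 - δ) * N - 1) / 2) 0 with h6 | h6
    · have : r = 0 := by rw [hr]; exact Nat.ceil_eq_zero.2 h6
      rw [this]
      have : 0 < (1 - δ) * N := mul_pos (by linarith) hN'
      push_cast
      linarith
    · have := Nat.ceil_lt_add_one h6.le
      rw [← hr] at this
      linarith
  have hrR : r ≤ R := by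
    have h7 : (2 * r + 1 : ℝ) < N + 1 := by nlinarith
    have h8 : 2 * r + 1 < N + 1 := by exact_mod_cast h7
    omega
  obtain ⟨f, hf1, hf2, hf3⟩ := hP10 δ E U hδ h3 hE hU N h hNpos hh
  have hf : C9 N (2 * r + 1) 1 f := ⟨hf1, fun i => by
    have := hf2 i
    linarith⟩
  have ha : 0 < h * N := by positivity
  -- weights
  set W1 : ℕ → ℝ := fun j => (h * N / Real.pi) * W (h * N) j with hW1
  have hW1k : ∀ m : ℤ, HasSum (fun j : ℕ => W1 j *
      ((Nat.choose (2 * j) (j + m.natAbs) : ℝ) / 4 ^ j)) (kap (h * N) m) := by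
    intro m
    have := (F0_W (hWh (h * N) ha) m).mul_left (h * N / Real.pi)
    have e1 : (h * N / Real.pi) * (1 / ((h * N) ^ 2 + (m : ℝ) ^ 2)) = kap (h * N) m := by
      unfold kap
      rw [div_mul_div_comm, mul_one]
    rw [e1] at this
    refine this.congr_fun ?_
    intro j
    simp only [hW1]
    ring
  have hW1s : Summable W1 := (hWs _ ha).mul_left _
  have hW10 : ∀ j, 0 ≤ W1 j := fun j =>
    mul_nonneg (div_nonneg ha.le Real.pi_pos.le) (hW0 _ ha j)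
  have hep : 0 ≤ epsf h N := by unfold epsf; positivity
  set w : ℕ → ℝ := fun j => (1 + epsf h N) * W1 j with hw
  have hw0 : ∀ j, 0 ≤ w j := fun j => mul_nonneg (by linarith) (hW10 j)
  have hws : Summable w := hW1s.mul_left _
  have hwK : ∀ Z i, Kop w Z i = (1 + epsf h N) * Kop W1 Z i := by
    intro Z i
    unfold Kop
    rw [← tsum_mul_left]
    refine tsum_congr fun j => ?_
    simp only [hw]
    ring
  have hsN : 0 < s * N := by positivity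
  have hbN : 0 < b * N := mul_pos (hs.trans hsb) hN'
  set w' : ℕ → ℝ := fun j => W (s * N) j - W (b * N) j with hw'
  have hw'0 : ∀ j, 0 ≤ w' j := fun j => sub_nonneg.2
    (hWm (s * N) (b * N) hsN (mul_le_mul_of_nonneg_right hsb.le hN'.le) j)
  have hw's : Summable w' := (hWs _ hsN).sub (hWs _ hbN)
  have hw'k : ∀ m : ℤ, HasSum (fun j : ℕ => w' j *
      ((Nat.choose (2 * j) (j + m.natAbs) : ℝ) / 4 ^ j))
      (1 / ((s * N) ^ 2 + (m : ℝ) ^ 2) - 1 / ((b * N) ^ 2 + (m : ℝ) ^ 2)) := by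
    intro m
    refine ((F0_W (hWh _ hsN) m).sub (F0_W (hWh _ hbN) m)).congr_fun ?_
    intro j
    simp only [hw']
    ring
  -- functions
  set V : ℤ → ℝ := fun i => (1 + C * h) * Ut δ' ((i : ℝ) / N : ℝ) with hV
  have hCh : 0 < 1 + C * h := by positivity
  set B := max B0 ((1 + C * h) * Ut δ' 0) with hBdef
  have hub : ∀ i, 0 ≤ cellU U N i ∧ cellU U N i ≤ B := fun i =>
    ⟨(F0_cell hU.cont hU0 N hNpos i).1, (F0_cell hU.cont hU0 N hNpos i).2.trans (le_max_left _ _)⟩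
  have hVb : ∀ i, 0 ≤ V i ∧ V i ≤ B := fun i =>
    ⟨mul_nonneg hCh.le (hM3g _).1,
      (mul_le_mul_of_nonneg_left (hM3g _).2 hCh.le).trans (le_max_right _ _)⟩
  have habs : ∀ {Z : ℤ → ℝ}, (∀ i, 0 ≤ Z i ∧ Z i ≤ B) → ∀ i, |Z i| ≤ B := fun hZ i => by
    rw [abs_of_nonneg (hZ i).1]; exact (hZ i).2
  have key := hC10 N R r hN hrR w w' hw0 hws hw'0 hw's h B f (cellU U N) V hh hf hub hVb
    (fun i => by
      rw [hwK, ← (hK3 W1 _ hW10 hW1s hW1k (cellU U N) B (habs hub) i).2]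
      exact hf3 i)
    (fun i hi => by
      rw [hwK, ← (hK3 W1 _ hW10 hW1s hW1k V B (habs hVb) i).2]
      exact hN1 N (by omega) r hr2 i hi) 0
  rw [← (hK3 w' _ hw'0 hw's hw'k (cellU U N) B (habs hub) 0).2,
    ← (hK3 w' _ hw'0 hw's hw'k V B (habs hVb) 0).2] at key
  simp only [zero_add] at key
  have k1 := hN3 N (by omega)
  have k2 := hN2 N (by omega)
  refine k1.trans ?_
  have k3 : ∑' m : ℤ, (1 / ((s * N) ^ 2 + (m : ℝ) ^ 2) - 1 / ((b * N) ^ 2 + (m : ℝ) ^ 2)) * V m =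
      (1 + C * h) * ∑' m : ℤ, (1 / ((s * N) ^ 2 + (m : ℝ) ^ 2) -
        1 / ((b * N) ^ 2 + (m : ℝ) ^ 2)) * Ut δ' ((m : ℝ) / N : ℝ) := by
    rw [← tsum_mul_left]
    refine tsum_congr fun j => ?_
    simp only [hV]
    ring
  rw [k3] at key
  have k4 := mul_le_mul_of_nonneg_left key hN'.le
  have k5 := mul_le_mul_of_nonneg_left k2 hCh.le
  linarith

theorem T_F0 (hC10 : S_C10) (hK1 : S_K1) (hK3 : S_K3) (hP9 : S_P9) (hP10 : S_P10) (hM2 : S_M2)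
    (hM3 : S_M3) (hM4 : S_M4) (hM6 : S_M6) (hL2 : S_L2) (hL3 : S_L3) : S_F0 := by
  intro δ E U hδ hδ1 hE hU s b hs hsb
  obtain ⟨B0, hB⟩ := hP9 δ E U hδ hE hU
  have hk : Integrable (fun t : ℝ => (1 / (t ^ 2 + s ^ 2) - 1 / (t ^ 2 + b ^ 2))) :=
    (F0_int s hs).sub (F0_int b (hs.trans hsb))
  have hk0 : ∀ t : ℝ, 0 ≤ (1 / (t ^ 2 + s ^ 2) - 1 / (t ^ 2 + b ^ 2)) := fun t => by
    rw [sub_nonneg]
    exact one_div_le_one_div_of_le (by positivity) (by nlinarith)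
  -- the comparison with δ' < δ
  have hmain : ∀ δ', 0 < δ' → δ' < δ →
      (∫ t : ℝ, (1 / (t ^ 2 + s ^ 2) - 1 / (t ^ 2 + b ^ 2)) * U t) ≤
      (∫ t : ℝ, (1 / (t ^ 2 + s ^ 2) - 1 / (t ^ 2 + b ^ 2)) * Ut δ' t) := by
    intro δ' h1 h2
    obtain ⟨C, h₀, hC, hh₀, H⟩ := F0_step hC10 hK1 hK3 hP10 hM2 hM3 hM6 hL2 hL3 h1 h2 hδ1 hE hU hB
      hs hsb
    set I := ∫ t : ℝ, (1 / (t ^ 2 + s ^ 2) - 1 / (t ^ 2 + b ^ 2)) * Ut δ' t with hI
    have ht : Tendsto (fun h : ℝ => (1 + C * h) * (I + h) + h) (𝓝[>] 0) (𝓝 I) := by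
      have : Continuous (fun h : ℝ => (1 + C * h) * (I + h) + h) := by fun_prop
      have h3 := (this.tendsto 0).mono_left (nhdsWithin_le_nhds (s := Ioi 0))
      simpa using h3
    refine ge_of_tendsto ht ?_
    filter_upwards [Ioc_mem_nhdsGT hh₀] with h hh
    exact H h hh.1 hh.2 h hh.1
  -- δ' → δ
  have hlim : Tendsto (fun δ' : ℝ =>
      ∫ t : ℝ, (1 / (t ^ 2 + s ^ 2) - 1 / (t ^ 2 + b ^ 2)) * Ut δ' t) (𝓝[<] δ)
      (𝓝 (∫ t : ℝ, (1 / (t ^ 2 + s ^ 2) - 1 / (t ^ 2 + b ^ 2)) * Ut δ t)) := by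
    have hev : ∀ᶠ δ' in 𝓝[<] δ, δ / 2 ≤ δ' ∧ δ' < δ := by
      filter_upwards [Ioo_mem_nhdsLT (show δ / 2 < δ by linarith)] with x hx
      exact ⟨hx.1.le, hx.2⟩
    refine tendsto_integral_filter_of_dominated_convergence
      (fun t => (1 / (t ^ 2 + s ^ 2) - 1 / (t ^ 2 + b ^ 2)) * Ut (δ / 2) 0) ?_ ?_ ?_ ?_
    · filter_upwards [hev] with δ' hd
      exact hk.aestronglyMeasurable.mul
        ((hM2 δ' (by linarith [hd.1]) (hd.2.trans hδ1)).cont.comp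
          Complex.continuous_ofReal).aestronglyMeasurable
    · filter_upwards [hev] with δ' hd
      refine Eventually.of_forall fun t => ?_
      have h4 := (hM3 δ' (by linarith [hd.1]) (hd.2.trans hδ1)).2.2.2.2.2.2 t
      have h5 := (hM4 δ' (by linarith [hd.1]) (hd.2.trans hδ1)).1 (δ / 2) t (by linarith) hd.1
      have h6 := (hM3 (δ / 2) (by linarith) (by linarith)).2.2.2.2.2.2 t
      rw [Real.norm_eq_abs, abs_of_nonneg (mul_nonneg (hk0 t) h4.1)]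
      exact mul_le_mul_of_nonneg_left (h5.trans h6.2) (hk0 t)
    · exact hk.mul_const _
    · refine Eventually.of_forall fun t => ?_
      exact ((hM4 δ hδ hδ1).2 t).const_mul _
  refine ge_of_tendsto hlim ?_
  filter_upwards [Ioo_mem_nhdsLT (show 0 < δ from hδ)] with δ' hd
  exact hmain δ' hd.1 hd.2

end H961Lev
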